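import Pool.Agent.Helper71.JN.SheetD
import Pool.Agent.Helper66.JN.BRG
import Pool.Agent.Helper47.JN.RK

/-!
Project JN: row BRGK, from the sequences to the abstract part (uniform theorem).
-/

set_option autoImplicit false

namespace Pool.Agent.Helper66.JN

open Filter Finset Pool.Agent.Helper70.SUB Pool.Agent.Helper77.SUBK Pool.Agent.Helper70.SUBL
  Pool.Agent.Helper70.SUBW Pool.Agent.Helper71.JN

/-- (BRGK) -/
theorem BRGK (hMONG : ST_MONG) (hSSFX : ST_SSFX) (hGALX : ST_GALX) (hRDX : ST_RDX)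
    (hOMG : ST_OMG) (hOSR : ST_OSR) (hHEART : ST_HEARTK) (hMAINW : ST_MAINW) (hSLW : ST_SLW) :
    ST_BRGK := by
  intro M _ _ _ S P φ x y X p q β ε ρ hS hε hβ0 hβ hρ hX hXx hR hR' hall
  classical
  obtain ⟨t, c, u, hc, hu, hRs⟩ := hR
  obtain ⟨t', c', u', hc', hu', hRs'⟩ := hR'
  obtain ⟨r, w, hw, hI, hmu, hmw⟩ := hMONG M S P φ X (Fin t ⊕ Fin t') (Sum.elim u u') hS hX
    (by
      rintro (i | i)
      · exact hu i
      · exact hu' i)
  obtain ⟨D, hD⟩ := hSSFX M S P φ X r w hS hX hw hI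
  obtain ⟨g1, g2, g3, g4, g5, g6, g7, g8⟩ := hOMG M S P φ X hS hX
  have : CharZero (Om P φ X) := g6
  obtain ⟨rd1, rd2⟩ := hRDX M S P φ X r w D hS hX hw hD
  obtain ⟨-, -, -, sl4, -, -, -, -, -, -, -, -, sl13⟩ := hSLW M S P φ X hS hX
  obtain ⟨-, -, -, -, -, -, -, os8, -⟩ := hOSR M S P φ X hS hX
  -- sizes
  have hX1 := hX.eventually_ge_atTop 1
  have hα1 : (2 / (2 + ε) : ℝ) < 1 := by
    rw [div_lt_one (by linarith)]
    linarith
  have hα0 : (0 : ℝ) ≤ 2 / (2 + ε) := by positivity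
  have hd : ∀ᶠ j in (φ : Filter ℕ), |((y j ^ 2 - x j ^ 3 : ℤ) : ℝ)| ≤ X j ^ (2 / (2 + ε)) := by
    filter_upwards [hall, hXx, hX1] with j h1 h2 h3
    refine h1.2.2.1.trans (le_of_eq ?_)
    rw [← h2, ← Real.rpow_natCast (X j) 2, ← Real.rpow_mul (by linarith)]
    congr 1
    push_cast
    ring
  have hxb : ∀ᶠ j in (φ : Filter ℕ), |(x j : ℝ)| ≤ X j ^ (2 : ℝ) := by
    filter_upwards [hXx] with j h1
    rw [← h1, Real.rpow_two]
  have hyb : ∀ᶠ j in (φ : Filter ℕ), |(y j : ℝ)| ≤ X j ^ (4 : ℝ) := by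
    filter_upwards [hd, hXx, hX.eventually_ge_atTop 2] with j h1 h2 h3
    set T := X j with hT
    have h4 : |((y j ^ 2 - x j ^ 3 : ℤ) : ℝ)| ≤ T := by
      refine h1.trans ?_
      have h5 : T ^ (2 / (2 + ε)) ≤ T ^ (1 : ℝ) :=
        Real.rpow_le_rpow_of_exponent_le (by linarith) hα1.le
      rwa [Real.rpow_one] at h5
    push_cast at h4
    have h6 : (y j : ℝ) ^ 2 - (x j : ℝ) ^ 3 ≤ T := (abs_le.1 h4).2
    have h7 : (x j : ℝ) ^ 3 ≤ (T ^ 2) ^ 3 := by
      rw [h2, ← abs_pow]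
      exact le_abs_self _
    have h8 : (y j : ℝ) ^ 2 ≤ (T ^ 4) ^ 2 := by
      have h9 : T ≤ T ^ 6 := le_self_pow₀ (by linarith) (by norm_num)
      have h10 : 2 * T ^ 6 ≤ T ^ 8 := by
        have h11 : 2 ≤ T ^ 2 := by nlinarith
        have h12 : T ^ 8 = T ^ 2 * T ^ 6 := by ring
        rw [h12]
        exact mul_le_mul_of_nonneg_right h11 (by positivity)
      have h13 : (T ^ 2) ^ 3 = T ^ 6 := by ring
      have h14 : (T ^ 4) ^ 2 = T ^ 8 := by ring
      rw [h13] at h7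
      rw [h14]
      linarith
    have h15 := abs_le_of_sq_le_sq h8 (by positivity)
    have h16 : T ^ (4 : ℝ) = T ^ 4 := by
      rw [← Real.rpow_natCast]
      norm_num
    rw [h16]
    exact h15
  -- the classes of `x` and `y`
  have hxOS : OS P φ X (fun j => (x j : M)) := os8 x 2 hxb
  have hyOS : OS P φ X (fun j => (y j : M)) := os8 y 4 hyb
  obtain ⟨gx, hgx⟩ : ∃ g : Om P φ X, gm φ (fun j => (x j : M)) = (g : UP M φ) :=
    ⟨⟨_, g4 _ hxOS⟩, rfl⟩
  obtain ⟨gy, hgy⟩ : ∃ g : Om P φ X, gm φ (fun j => (y j : M)) = (g : UP M φ) :=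
    ⟨⟨_, g4 _ hyOS⟩, rfl⟩
  have hgxO : gx ∈ D.O := (hD.hO gx).2 ((g1 _).2 ⟨_, hxOS, hgx⟩)
  have hgyO : gy ∈ D.O := (hD.hO gy).2 ((g1 _).2 ⟨_, hyOS, hgy⟩)
  -- the conjugates of `R` and `R'`
  have hRD : ∀ τ : M ≃ₐ[ℚ] M, ∃ g ∈ D.R, gm φ (fun j => τ (p j)) = ((g : Om P φ X) : UP M φ) := by
    intro τ
    refine rd2 t (fun i j => τ (c i j)) (fun i j => τ (u i j)) _ (fun i => sl4 _ τ (hc i))
      (fun i => hmu (Sum.inl i) τ) ?_
    filter_upwards [hRs] with j hj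
    rw [← hj, map_sum]
    exact Finset.sum_congr rfl fun i _ => (map_mul τ _ _).symm
  have hRD' : ∀ τ : M ≃ₐ[ℚ] M, ∃ g ∈ D.R,
      gm φ (fun j => τ (q j)) = ((g : Om P φ X) : UP M φ) := by
    intro τ
    refine rd2 t' (fun i j => τ (c' i j)) (fun i j => τ (u' i j)) _ (fun i => sl4 _ τ (hc' i))
      (fun i => hmu (Sum.inr i) τ) ?_
    filter_upwards [hRs'] with j hj
    rw [← hj, map_sum]
    exact Finset.sum_congr rfl fun i _ => (map_mul τ _ _).symm
  choose Rt hRtR hRt using hRD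
  choose Rt' hRtR' hRt' using hRD'
  -- the sizes in terms of the absolute values of `D`
  have hN := hD.hN
  have leN : ∀ (i : Pl S M) (g : Om P φ X) (z : ℕ → M), gm φ z = (g : UP M φ) → ∀ a : ℝ,
      (∀ᶠ j in (φ : Filter ℕ), P.nv i.1 (i.2 (z j)) ≤ X j ^ a) → D.nu i g ≤ Real.exp a :=
    fun i g z hg a h => ((hN.2 i g z hg a).1).2 (leA_of hX i z a h)
  have geN : ∀ (i : Pl S M) (g : Om P φ X) (z : ℕ → M), gm φ z = (g : UP M φ) → ∀ a : ℝ,
      (∀ᶠ j in (φ : Filter ℕ), X j ^ a ≤ P.nv i.1 (i.2 (z j))) → Real.exp a ≤ D.nu i g :=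
    fun i g z hg a h => ((hN.2 i g z hg a).2).2 (geA_of hX i z a h)
  let J : Finset (Pl S M) := Finset.univ.filter fun i => (i.1 : Option ℕ) = none
  have hJm : ∀ i : Pl S M, i ∈ J ↔ (i.1 : Option ℕ) = none := fun i => by simp [J]
  have hfin : ∀ i : Pl S M, i ∉ J → ∀ n : ℤ, P.nv i.1 (n : M) ≤ 1 := by
    intro i hi n
    rw [hJm] at hi
    obtain ⟨p, hp⟩ := Option.ne_none_iff_exists'.1 hi
    have h1 : some p ∈ plc S := hp ▸ i.1.2
    rw [hp]
    exact P.int_le Pool.Agent.Helper15.SUB.AV hS (of_mem_some h1) n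
  have hcd : gm φ (fun j => (((y j ^ 2 - x j ^ 3 : ℤ)) : M)) =
      ((gy ^ 2 - gx ^ 3 : Om P φ X) : UP M φ) := by
    push_cast
    rw [← hgx, ← hgy]
    rfl
  have hsx : ∀ i ∈ J, D.nu i gx = Real.exp 2 := by
    intro i hi
    rw [hJm] at hi
    apply le_antisymm
    · refine leN i gx _ hgx 2 ?_
      filter_upwards [hXx] with j h1
      rw [hi, map_intCast, nv_none_int, ← h1, Real.rpow_two]
    · refine geN i gx _ hgx 2 ?_
      filter_upwards [hXx] with j h1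
      rw [hi, map_intCast, nv_none_int, ← h1, Real.rpow_two]
  have hsd : ∀ i ∈ J, D.nu i (gy ^ 2 - gx ^ 3) ≤ Real.exp (2 / (2 + ε)) := by
    intro i hi
    rw [hJm] at hi
    refine leN i _ _ hcd _ ?_
    filter_upwards [hd] with j h1
    rw [hi, map_intCast, nv_none_int]
    exact h1
  have hult : ∀ (i : Pl S M) (g h : Om P φ X), D.nu i (g + h) ≤ max (D.nu i g) (D.nu i h) :=
    fun i g h => D.ult i g h
  have hsy : ∀ i ∈ J, D.nu i gy = Real.exp 3 := by
    intro i hi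
    have h1 : D.nu i (gx ^ 3) = Real.exp 6 := by
      rw [map_pow, hsx i hi, ← Real.exp_nat_mul]
      norm_num
    have h2 : D.nu i (gx ^ 3 + (gy ^ 2 - gx ^ 3)) = D.nu i (gx ^ 3) := by
      refine u_iso (D.nu i) (hult i) ?_
      rw [h1]
      exact (hsd i hi).trans_lt (Real.exp_lt_exp.2 (by linarith))
    have h3 : gx ^ 3 + (gy ^ 2 - gx ^ 3) = gy ^ 2 := by ring
    rw [h3, h1, map_pow] at h2
    have h4 : D.nu i gy ^ 2 = Real.exp 3 ^ 2 := by
      rw [h2, ← Real.exp_nat_mul]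
      norm_num
    exact (pow_left_inj₀ ((D.nu i).nonneg _) (Real.exp_pos _).le (by norm_num)).1 h4
  -- the differences with the conjugates of `p / q`
  have hb : ∀ i ∈ J, D.nu i (gx - (Rt (i.2)⁻¹ / Rt' (i.2)⁻¹) ^ 2) ≤ Real.exp β := by
    intro i hi
    rw [hJm] at hi
    refine leN i _ (fun j => (x j : M) - ((i.2)⁻¹ (p j) / (i.2)⁻¹ (q j)) ^ 2) ?_ _ ?_
    · push_cast
      rw [← hgx, ← hRt, ← hRt']
      rfl
    · filter_upwards [hall] with j h1
      have h2 : i.2 ((x j : M) - ((i.2)⁻¹ (p j) / (i.2)⁻¹ (q j)) ^ 2) =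
          (x j : M) - (p j / q j) ^ 2 := by
        rw [map_sub, map_pow, map_intCast, map_div₀, ← AlgEquiv.mul_apply, ← AlgEquiv.mul_apply,
          mul_inv_cancel, AlgEquiv.one_apply, AlgEquiv.one_apply]
      rw [h2, hi]
      exact h1.2.2.2.1
  have hyR : ∀ i ∈ J, D.nu i (gy - (Rt (i.2)⁻¹ / Rt' (i.2)⁻¹) ^ 3) < Real.exp 3 := by
    intro i hi
    rw [hJm] at hi
    refine (leN i _ (fun j => (y j : M) - ((i.2)⁻¹ (p j) / (i.2)⁻¹ (q j)) ^ 3) ?_ (3 - ρ)
      ?_).trans_lt (Real.exp_lt_exp.2 (by linarith))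
    · push_cast
      rw [← hgy, ← hRt, ← hRt']
      rfl
    · filter_upwards [hall] with j h1
      have h2 : i.2 ((y j : M) - ((i.2)⁻¹ (p j) / (i.2)⁻¹ (q j)) ^ 3) =
          (y j : M) - (p j / q j) ^ 3 := by
        rw [map_sub, map_pow, map_intCast, map_div₀, ← AlgEquiv.mul_apply, ← AlgEquiv.mul_apply,
          mul_inv_cancel, AlgEquiv.one_apply, AlgEquiv.one_apply]
      rw [h2, hi]
      exact h1.2.2.2.2
  have hs1 : ∀ i ∈ J, D.nu i (Rt (i.2)⁻¹ / Rt' (i.2)⁻¹) = Real.exp 1 := by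
    intro i hi
    set ri := Rt (i.2)⁻¹ / Rt' (i.2)⁻¹ with hri
    have h1 : D.nu i (gx + -(gx - ri ^ 2)) = D.nu i gx := by
      refine u_iso (D.nu i) (hult i) ?_
      rw [AbsoluteValue.map_neg, hsx i hi]
      exact (hb i hi).trans_lt (Real.exp_lt_exp.2 (by linarith))
    have h3 : gx + -(gx - ri ^ 2) = ri ^ 2 := by ring
    rw [h3, hsx i hi, map_pow] at h1
    have h4 : D.nu i ri ^ 2 = Real.exp 1 ^ 2 := by
      rw [h1, ← Real.exp_nat_mul]
      norm_num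
    exact (pow_left_inj₀ ((D.nu i).nonneg _) (Real.exp_pos _).le (by norm_num)).1 h4
  have hK : ∀ τ : M ≃ₐ[ℚ] M, Rt τ / Rt' τ ∈ D.K := fun τ =>
    D.K.div_mem (Pool.Agent.Helper47.JN.R_le_K D _ (hRtR τ))
      (Pool.Agent.Helper47.JN.R_le_K D _ (hRtR' τ))
  have hH : HK D J (2 / (2 + ε)) β gx gy (fun i => Rt (i.2)⁻¹ / Rt' (i.2)⁻¹)
      (fun i => (Rt (i.2)⁻¹ / Rt' (i.2)⁻¹)⁻¹) := by
    refine
      { hα0 := hα0
        hα := hα1
        hβ0 := hβ0
        hβ := hβ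
        hJ := ⟨(⟨none, mem_none⟩, 1), (hJm _).2 rfl⟩
        xO := hgxO
        yO := hgyO
        d0 := ?_
        fx := ?_
        fy := ?_
        sx := hsx
        sy := hsy
        sd := hsd
        RR := fun i _ => hK _
        RR' := fun i _ => D.K.inv_mem (hK _)
        s1 := hs1
        s2 := hb
        s3 := ?_
        s4 := hyR
        gal := ?_ }
    · intro h0
      rw [h0] at hcd
      have h1 : gm φ (fun j => (((y j ^ 2 - x j ^ 3 : ℤ)) : M)) = gm φ (fun _ => (0 : M)) := by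
        rw [hcd]
        rfl
      rw [Pool.Agent.Helper47.SUBW.gm_eq] at h1
      obtain ⟨j, h2, h3⟩ := (h1.and hall).exists
      have h4 : (y j ^ 2 - x j ^ 3 : ℤ) = 0 := by exact_mod_cast h2
      exact h3.2.1 (sub_eq_zero.1 h4)
    · intro i hi
      have h1 := leN i gx _ hgx 0 (Eventually.of_forall fun j => by
        rw [map_intCast, Real.rpow_zero]
        exact hfin i hi _)
      rwa [Real.exp_zero] at h1
    · intro i hi
      have h1 := leN i gy _ hgy 0 (Eventually.of_forall fun j => by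
        rw [map_intCast, Real.rpow_zero]
        exact hfin i hi _)
      rwa [Real.exp_zero] at h1
    · intro i hi
      have h1 : Rt (i.2)⁻¹ / Rt' (i.2)⁻¹ ≠ 0 := by
        intro h0
        have h2 := hs1 i hi
        rw [h0, map_zero] at h2
        exact (Real.exp_pos 1).ne h2
      rw [mul_inv_cancel₀ h1, sub_self, map_zero]
      exact (Real.exp_pos _).le
    · intro i hi i' hi'
      rw [hJm] at hi hi'
      obtain ⟨γ, hγ1, hγ2⟩ := hGALX M S P φ X ((i.2)⁻¹ * i'.2) hS hX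
      obtain ⟨hγ3, hγ4⟩ := hγ2 r w D hw hD
      refine ⟨γ, ?_, ?_, hγ4 fun k => hmw k _, ?_⟩
      · have h1 := hγ1 gx _ hgx
        simp only [map_intCast] at h1
        rw [hgx] at h1
        exact (Subtype.ext h1).symm
      · have h1 := hγ1 gy _ hgy
        simp only [map_intCast] at h1
        rw [hgy] at h1
        exact (Subtype.ext h1).symm
      · intro z
        have h1 := hγ3 i.1 i.2 z
        rw [mul_inv_cancel_left] at h1
        have h2 : i'.1 = i.1 := Subtype.ext (hi'.trans hi.symm)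
        have h3 : i' = (i.1, i'.2) := Prod.ext h2 rfl
        rw [h3]
        exact h1
  obtain ⟨hxR, hyRm⟩ := hHEART _ _ _ r D J _ β gx gy _ _ hH
  have hxS := rd1 gx _ hxR hgx
  have hyS := rd1 gy _ hyRm hgy
  -- change of scale
  have hX' : Tendsto (fun j => |(x j : ℝ)|) (φ : Filter ℕ) atTop := by
    refine tendsto_atTop_mono' _ ?_ hX
    filter_upwards [hXx, hX1] with j h1 h2
    rw [← h1]
    nlinarith
  obtain ⟨cs, -⟩ := sl13 (fun j => |(x j : ℝ)|) 1 one_pos hX' (by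
    filter_upwards [hXx, hX1] with j h1 h2
    rw [← h1, Real.rpow_one]
    nlinarith)
  have hspa : ∀ z : ℕ → M, SpM P φ X z → Spa P φ (fun j => |(x j : ℝ)|) z := by
    rintro z ⟨t, c, u, hc, hu, hz⟩
    exact ⟨t, c, u, fun i => cs _ (hc i), fun i => (hu i).1, hz⟩
  exact hMAINW M S P φ x y ε hS hε hX' (hspa _ hxS) (hspa _ hyS)
    (hall.mono fun j h => ⟨h.2.1, h.2.2.1⟩)

end Pool.Agent.Helper66.JN
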