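import Pool.Agent.Helper71.JN.SheetB

/-!
Project JN: row HEART from TRS, YKX, IZ, N3, N2A, N2B and PRIM.
-/

set_option autoImplicit false

namespace Pool.Agent.Helper66.JN

open Pool.Agent.Helper71.JN Polynomial

/-- an element of `D.O` which lies in `D.K` lies in `D.R` (PRIM for polynomials of degree one) -/
theorem mem_R_of_PRIM (hPRIM : ST_PRIM) {F Ω : Type} [Field F] [Field Ω] [Algebra F Ω] {I : Type}
    [Fintype I] {r : ℕ} (D : SSF F Ω I r) (z : Ω) (hO : z ∈ D.O) (hK : z ∈ D.K) : z ∈ D.R := by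
  have hint : IsIntegral D.K z := by
    have := isIntegral_algebraMap (R := D.K) (A := Ω) (x := ⟨z, hK⟩)
    simpa using this
  have h0 := (hPRIM F Ω I r D z hO hint 0).1
  have hmin : minpoly D.K z = X - C (⟨z, hK⟩ : D.K) := by
    have := minpoly.eq_X_sub_C (A := D.K) Ω ⟨z, hK⟩
    simpa using this
  rw [hmin] at h0
  have h1 : (((X - C (⟨z, hK⟩ : D.K)).coeff 0 : D.K) : Ω) = - z := by
    simp
  rw [h1] at h0
  have := D.R.neg_mem h0
  simpa using this

/-- (HEART) -/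
theorem HEART (hTRS : ST_TRS) (hYKX : ST_YKX) (hIZ : ST_IZ) (hN3 : ST_N3) (hN2A : ST_N2A)
    (hN2B : ST_N2B) (hPRIM : ST_PRIM) : ST_HEART := by
  intro F Ω _ _ _ _ I _ r D J α β x y R R' hH
  have hx : IsIntegral D.K x := hTRS F Ω I r D J α β x y R R' hH
  obtain ⟨q, hq⟩ := hYKX F Ω I r D J α β x y R R' hH
  have : CharZero D.K := by
    refine ⟨fun a b hab => ?_⟩
    have h1 : ((a : D.K) : Ω) = ((b : D.K) : Ω) := by rw [hab]
    have h2 : (a : Ω) = (b : Ω) := by simpa using h1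
    exact Nat.cast_injective h2
  have hdeg : (minpoly D.K x).natDegree ≤ 2 :=
    hN3 D.K (AlgebraicClosure D.K) Ω x q hx
      (hIZ F Ω I r D J α β x y R R' hH hx q hq)
  have hpos : 0 < (minpoly D.K x).natDegree := minpoly.natDegree_pos hx
  have hne2 : (minpoly D.K x).natDegree ≠ 2 := by
    intro h2
    obtain ⟨Q, s, h1, h2, h3, h4, h5, h6, h7, h8⟩ :=
      hN2A F Ω I r D J α β x y R R' hH hx ⟨q, hq⟩ h2
    exact hN2B F Ω I r D J α β x y R R' hH Q s h1 h2 h3 h4 h5 h6 h7 h8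
  have hone : (minpoly D.K x).natDegree = 1 := by omega
  have hmem : x ∈ D.K := by
    have h1 := (minpoly.natDegree_eq_one_iff (A := D.K) (x := x)).1 hone
    obtain ⟨a, ha⟩ := h1
    rw [← ha]
    exact a.2
  have hxR : x ∈ D.R := mem_R_of_PRIM hPRIM D x hH.xO hmem
  have hyK : y ∈ D.K := by
    have h1 : aeval x q = algebraMap D.K Ω (q.eval (⟨x, hmem⟩ : D.K)) := by
      have := Polynomial.aeval_algebraMap_apply Ω (⟨x, hmem⟩ : D.K) q
      simpa using this
    rw [← hq, h1]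
    exact (q.eval (⟨x, hmem⟩ : D.K)).2
  exact ⟨hxR, mem_R_of_PRIM hPRIM D y hH.yO hyK⟩

end Pool.Agent.Helper66.JN
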