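import Pool.Agent.Helper71.JN.SheetD
import Pool.Agent.Helper66.JN.HEART

/-!
Project JN: row HEARTK from TRSK, YKXK, IZK, N3, N2AK, N2BK and PRIM.
-/

set_option autoImplicit false

namespace Pool.Agent.Helper66.JN

open Pool.Agent.Helper71.JN Polynomial

/-- (HEARTK) -/
theorem HEARTK (hTRS : ST_TRSK) (hYKX : ST_YKXK) (hIZ : ST_IZK) (hN3 : ST_N3) (hN2A : ST_N2AK)
    (hN2B : ST_N2BK) (hPRIM : ST_PRIM) : ST_HEARTK := by
  intro F Ω _ _ _ _ I _ r D J α β x y R R' hH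
  have hx : IsIntegral D.K x := hTRS F Ω I r D J α β x y R R' hH
  obtain ⟨q, hq⟩ := hYKX F Ω I r D J α β x y R R' hH
  have : CharZero D.K := by
    refine ⟨fun a b hab => ?_⟩
    have h1 : ((a : D.K) : Ω) = ((b : D.K) : Ω) := by rw [hab]
    have h2 : (a : Ω) = (b : Ω) := by simpa using h1
    exact Nat.cast_injective h2
  have hdeg : (minpoly D.K x).natDegree ≤ 2 :=
    hN3 D.K (AlgebraicClosure D.K) Ω x q hx
      (hIZ F Ω I r D J α β x y R R' hH hx q hq)
  have hpos : 0 < (minpoly D.K x).natDegree := minpoly.natDegree_pos hx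
  have hne2 : (minpoly D.K x).natDegree ≠ 2 := by
    intro h2
    obtain ⟨Q, s, h1, h2, h3, h4, h5, h6, h7, h8⟩ :=
      hN2A F Ω I r D J α β x y R R' hH hx ⟨q, hq⟩ h2
    exact hN2B F Ω I r D J α β x y R R' hH Q s h1 h2 h3 h4 h5 h6 h7 h8
  have hone : (minpoly D.K x).natDegree = 1 := by omega
  have hmem : x ∈ D.K := by
    have h1 := (minpoly.natDegree_eq_one_iff (A := D.K) (x := x)).1 hone
    obtain ⟨a, ha⟩ := h1
    rw [← ha]
    exact a.2
  have hxR : x ∈ D.R := mem_R_of_PRIM hPRIM D x hH.xO hmem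
  have hyK : y ∈ D.K := by
    have h1 : aeval x q = algebraMap D.K Ω (q.eval (⟨x, hmem⟩ : D.K)) := by
      have := Polynomial.aeval_algebraMap_apply Ω (⟨x, hmem⟩ : D.K) q
      simpa using this
    rw [← hq, h1]
    exact (q.eval (⟨x, hmem⟩ : D.K)).2
  exact ⟨hxR, mem_R_of_PRIM hPRIM D y hH.yO hyK⟩

end Pool.Agent.Helper66.JN
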