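import Pool.Agent.Helper71.JN.SheetD
import Pool.Agent.Helper66.JN.N2B

/-!
Project JN, row N2BK (as N2B with the weaker structure HK).
-/

set_option autoImplicit false

namespace Pool.Agent.Helper66.JN

open Polynomial Pool.Agent.Helper71.JN

theorem N2BK (hRK : ST_RK) (hAPX : ST_APXK) : ST_N2BK := by
  intro F Ω _ _ _ _ I _ r D J α β x y R R' hH Q s hQ hs hb2 hb0 hy hbJ hbn hD2
  obtain ⟨hRK1, hRK2, hRK3, hRK4, hRK5, hRO, hRK7, hRK8, hRK9, hRK10, hRK11, hRK12, hRK13, hPF,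
    -⟩ := hRK F Ω I r D
  obtain ⟨hq, -, -⟩ := hAPX F Ω I r D J α β x y R R' hH
  obtain ⟨b, hb⟩ : ∃ b : Ω, b = x - Q ^ 2 := ⟨_, rfl⟩
  rw [← hb] at hb2 hb0 hy hbJ hbn hD2
  have hx : x = Q ^ 2 + b := by rw [hb]; ring
  have hα := hH.hα
  have hα0 := hH.hα0
  have hβ := hH.hβ
  have hβ0 := hH.hβ0
  have c2 : ∀ i, D.nu i (2 : Ω) = 1 := fun i => by
    have := hq i 2 (by norm_num); exact_mod_cast this
  have c3 : ∀ i, D.nu i (3 : Ω) = 1 := fun i => by
    have := hq i 3 (by norm_num); exact_mod_cast this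
  have c8 : ∀ i, D.nu i (8 : Ω) = 1 := fun i => by
    have := hq i 8 (by norm_num); exact_mod_cast this
  have c9 : ∀ i, D.nu i (9 : Ω) = 1 := fun i => by
    have := hq i 9 (by norm_num); exact_mod_cast this
  have c12 : ∀ i, D.nu i (12 : Ω) = 1 := fun i => by
    have := hq i 12 (by norm_num); exact_mod_cast this
  have c64 : ∀ i, D.nu i (64 : Ω) = 1 := fun i => by
    have := hq i 64 (by norm_num); exact_mod_cast this
  have c43 : ∀ i, D.nu i (4 / 3 : Ω) = 1 := fun i => by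
    have := hq i (4 / 3) (by norm_num)
    push_cast at this
    exact this
  have c13 : ∀ i, D.nu i (1 / 3 : Ω) = 1 := fun i => by
    have := hq i (1 / 3) (by norm_num)
    push_cast at this
    exact this
  have he : ∀ (t u : ℝ), Real.exp t * Real.exp u = Real.exp (t + u) := fun t u =>
    (Real.exp_add t u).symm
  have hlt : ∀ t u : ℝ, t < u → Real.exp t < Real.exp u := fun t u h => Real.exp_lt_exp.2 h
  have hle : ∀ t u : ℝ, t ≤ u → Real.exp t ≤ Real.exp u := fun t u h => Real.exp_le_exp.2 h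
  have hpow : ∀ (t : ℝ) (n : ℕ), Real.exp t ^ n = Real.exp (n * t) := fun t n =>
    (Real.exp_nat_mul t n).symm
  -- the size of Q
  have hQ1 : ∀ i ∈ J, D.nu i Q = Real.exp 1 := by
    intro i hi
    have h1 : D.nu i b < D.nu i x := by
      rw [hH.sx i hi]
      exact (hbJ i hi).2.trans_lt (hlt _ _ (by linarith))
    have h2 : Q ^ 2 = x + -b := by rw [hx]; ring
    have h3 : D.nu i (Q ^ 2) = D.nu i x := by
      rw [h2]
      exact u_iso (D.nu i) (D.ult i) (by rwa [(D.nu i).map_neg])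
    rw [map_pow, hH.sx i hi] at h3
    have h4 : D.nu i Q ^ 2 = Real.exp 1 ^ 2 := by
      rw [h3, hpow]; norm_num
    exact (pow_left_inj₀ ((D.nu i).nonneg _) (Real.exp_pos _).le (by norm_num)).1 h4
  -- the element H
  obtain ⟨H, hHd⟩ : ∃ H : Ω, H = 8 * Q * s - 8 * Q ^ 4 - 3 * b ^ 2 := ⟨_, rfl⟩
  have hnat : ∀ n : ℕ, (n : Ω) ∈ D.R := fun n => natCast_mem D.R n
  have h8R : (8 : Ω) ∈ D.R := by have := hnat 8; exact_mod_cast this
  have h3R : (3 : Ω) ∈ D.R := by have := hnat 3; exact_mod_cast this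
  have hHR : H ∈ D.R := by
    rw [hHd]
    exact D.R.sub_mem (D.R.sub_mem (D.R.mul_mem (D.R.mul_mem h8R hQ) hs)
      (D.R.mul_mem h8R (D.R.pow_mem hQ 4))) (D.R.mul_mem h3R hb2)
  have hHn : ∀ i, i ∉ J → D.nu i H ≤ 1 := by
    intro i hi
    obtain ⟨g1, g2, g3⟩ := hbn i hi
    have n0 := (D.nu i).nonneg
    rw [hHd]
    refine u_sub (D.nu i) (D.ult i) (u_sub (D.nu i) (D.ult i) ?_ ?_) ?_
    · rw [map_mul, map_mul, c8, one_mul]
      exact mul_le_one₀ g2 (n0 _) g3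
    · rw [map_mul, map_pow, c8, one_mul]
      exact pow_le_one₀ (n0 _) g2
    · rw [map_mul, map_pow, c3, one_mul]
      exact pow_le_one₀ (n0 _) g1
  have hH1 : ∀ i ∈ J, D.nu i H < Real.exp 1 := by
    intro i hi
    obtain ⟨g1, g2⟩ := hbJ i hi
    have n0 := (D.nu i).nonneg
    have e1 : H = (4 / 3) * (((y ^ 2 - x ^ 3) - ((s - 3 / 2 * Q * b) ^ 2 - (Q ^ 2 - b) ^ 3)) / b) -
        (1 / 3) * b ^ 2 := by
      rw [hHd, hy, hx]
      field_simp
      ring
    rw [e1]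
    refine u_sub_lt (D.nu i) (D.ult i) ?_ ?_
    · rw [map_mul, c43, one_mul, map_div₀]
      have g3 : D.nu i ((y ^ 2 - x ^ 3) - ((s - 3 / 2 * Q * b) ^ 2 - (Q ^ 2 - b) ^ 3)) ≤
          Real.exp α := u_sub (D.nu i) (D.ult i) (hH.sd i hi) (hD2 i hi)
      calc _ ≤ D.nu i ((y ^ 2 - x ^ 3) - ((s - 3 / 2 * Q * b) ^ 2 - (Q ^ 2 - b) ^ 3)) :=
            div_le_self (n0 _) g1
        _ ≤ Real.exp α := g3
        _ < Real.exp 1 := hlt _ _ hα
    · rw [map_mul, c13, one_mul, map_pow]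
      calc D.nu i b ^ 2 ≤ Real.exp β ^ 2 := pow_le_pow_left₀ (n0 _) g2 2
        _ = Real.exp (2 * β) := by rw [hpow]; norm_num
        _ < Real.exp 1 := hlt _ _ (by linarith)
  have hHJ : ∀ i ∈ J, D.nu i H < 1 := by
    intro i hi
    obtain ⟨g1, g2⟩ := hbJ i hi
    have n0 := (D.nu i).nonneg
    obtain ⟨A, hA⟩ : ∃ A : Ω, A = 8 * Q ^ 4 + (12 * Q ^ 2 * b + 3 * b ^ 2) := ⟨_, rfl⟩
    have e1 : H * (2 * A + H) = 64 * Q ^ 2 * (y ^ 2 - x ^ 3) - (8 * Q ^ 2 * b ^ 3 + 9 * b ^ 4) := by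
      rw [hHd, hA, hy, hx]
      ring
    have hQi := hQ1 i hi
    have a1 : D.nu i (8 * Q ^ 4) = Real.exp 4 := by
      rw [map_mul, map_pow, c8, one_mul, hQi, hpow]; norm_num
    have a2 : D.nu i (12 * Q ^ 2 * b + 3 * b ^ 2) < Real.exp 4 := by
      refine (D.ult i _ _).trans_lt (max_lt ?_ ?_)
      · rw [map_mul, map_mul, map_pow, c12, one_mul, hQi, hpow]
        calc Real.exp (((2 : ℕ) : ℝ) * 1) * D.nu i b ≤ Real.exp (((2 : ℕ) : ℝ) * 1) * Real.exp β :=
              mul_le_mul_of_nonneg_left g2 (Real.exp_pos _).le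
          _ = Real.exp (((2 : ℕ) : ℝ) * 1 + β) := he _ _
          _ < Real.exp 4 := hlt _ _ (by push_cast; linarith)
      · rw [map_mul, map_pow, c3, one_mul]
        calc D.nu i b ^ 2 ≤ Real.exp β ^ 2 := pow_le_pow_left₀ (n0 _) g2 2
          _ = Real.exp (((2 : ℕ) : ℝ) * β) := hpow _ _
          _ < Real.exp 4 := hlt _ _ (by push_cast; linarith)
    have a3 : D.nu i A = Real.exp 4 := by
      rw [hA, u_iso (D.nu i) (D.ult i) (by rwa [a1]), a1]
    have a4 : D.nu i (2 * A + H) = Real.exp 4 := by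
      have a5 : D.nu i (2 * A) = Real.exp 4 := by rw [map_mul, c2, one_mul, a3]
      rw [u_iso (D.nu i) (D.ult i) (by
        rw [a5]
        exact (hH1 i hi).trans (hlt _ _ (by norm_num))), a5]
    have a6 : D.nu i (64 * Q ^ 2 * (y ^ 2 - x ^ 3) - (8 * Q ^ 2 * b ^ 3 + 9 * b ^ 4)) <
        Real.exp 4 := by
      refine u_sub_lt (D.nu i) (D.ult i) ?_ ((D.ult i _ _).trans_lt (max_lt ?_ ?_))
      · rw [map_mul, map_mul, map_pow, c64, one_mul, hQi, hpow]
        calc _ ≤ Real.exp (((2 : ℕ) : ℝ) * 1) * Real.exp α :=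
              mul_le_mul_of_nonneg_left (hH.sd i hi) (Real.exp_pos _).le
          _ = Real.exp (((2 : ℕ) : ℝ) * 1 + α) := he _ _
          _ < Real.exp 4 := hlt _ _ (by push_cast; linarith)
      · rw [map_mul, map_mul, map_pow, map_pow, c8, one_mul, hQi, hpow]
        calc _ ≤ Real.exp (((2 : ℕ) : ℝ) * 1) * Real.exp β ^ 3 :=
              mul_le_mul_of_nonneg_left (pow_le_pow_left₀ (n0 _) g2 3) (Real.exp_pos _).le
          _ = Real.exp (((2 : ℕ) : ℝ) * 1 + ((3 : ℕ) : ℝ) * β) := by rw [hpow, he]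
          _ < Real.exp 4 := hlt _ _ (by push_cast; linarith)
      · rw [map_mul, map_pow, c9, one_mul]
        calc D.nu i b ^ 4 ≤ Real.exp β ^ 4 := pow_le_pow_left₀ (n0 _) g2 4
          _ = Real.exp (((4 : ℕ) : ℝ) * β) := hpow _ _
          _ < Real.exp 4 := hlt _ _ (by push_cast; linarith)
    rw [← e1, map_mul, a4] at a6
    have a7 : 0 < Real.exp 4 := Real.exp_pos _
    nlinarith
  have hH0 : H = 0 := prod_zero D J hH.hJ hPF H (hRO H hHR) hHJ hHn
  -- s = Q ^ 3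
  have e2 : 8 * Q * (s - Q ^ 3) = 3 * b ^ 2 := by
    have : 8 * Q * (s - Q ^ 3) = H + 3 * b ^ 2 := by rw [hHd]; ring
    rw [this, hH0, zero_add]
  have hsR : s - Q ^ 3 ∈ D.R := D.R.sub_mem hs (D.R.pow_mem hQ 3)
  have hs0 : s - Q ^ 3 = 0 := by
    refine prod_zero D J hH.hJ hPF _ (hRO _ hsR) ?_ ?_
    · intro i hi
      obtain ⟨g1, g2⟩ := hbJ i hi
      have n0 := (D.nu i).nonneg
      have h1 : D.nu i (8 * Q * (s - Q ^ 3)) = D.nu i (3 * b ^ 2) := by rw [e2]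
      rw [map_mul, map_mul, c8, one_mul, hQ1 i hi, map_mul, c3, one_mul, map_pow] at h1
      have h2 : D.nu i b ^ 2 < Real.exp 1 := by
        calc D.nu i b ^ 2 ≤ Real.exp β ^ 2 := pow_le_pow_left₀ (n0 _) g2 2
          _ = Real.exp (((2 : ℕ) : ℝ) * β) := hpow _ _
          _ < Real.exp 1 := hlt _ _ (by push_cast; linarith)
      have h3 : 0 < Real.exp 1 := Real.exp_pos _
      nlinarith
    · intro i hi
      obtain ⟨g1, g2, g3⟩ := hbn i hi
      refine u_sub (D.nu i) (D.ult i) g3 ?_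
      rw [map_pow]
      exact pow_le_one₀ ((D.nu i).nonneg _) g2
  rw [hs0, mul_zero] at e2
  have e3 : b ^ 2 = 0 := by
    rcases mul_eq_zero.1 e2.symm with h | h
    · exact absurd h (by norm_num)
    · exact h
  exact hb0 (pow_eq_zero_iff (by norm_num) |>.1 e3)

end Pool.Agent.Helper66.JN
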