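import Pool.Agent.Helper71.JN.SheetA
import Pool.Agent.Helper96.SUBW.MONW

/-!
Project JN: row MONG.
-/

set_option autoImplicit false

namespace Pool.Agent.Helper66.JN

open Filter Finset Pool.Agent.Helper70.SUB Pool.Agent.Helper77.SUBK Pool.Agent.Helper70.SUBL
  Pool.Agent.Helper70.SUBW Pool.Agent.Helper96.SUBW Pool.Agent.Helper71.JN

/-- all monomials in moderate S-units are monomials in independent ones, up to slow factors -/
theorem monw_all (hSLW : ST_SLW) (hSPW : ST_SPW) (M : Type) [Field M] [NumberField M]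
    [IsGalois ℚ M] (S : Finset ℕ) (P : PF S M) (φ : Ultrafilter ℕ) (X : ℕ → ℝ) (ι : Type)
    [Fintype ι] (u : ι → ℕ → M) (hS : ∀ p ∈ S, p.Prime) (hX : Tendsto X (φ : Filter ℕ) atTop)
    (hu : ∀ i, MU P φ X (u i)) :
    ∃ (r : ℕ) (f : Fin r → ι → ℤ), (∀ k, MU P φ X (UU u (f k))) ∧
      IndW P φ X (fun k => UU u (f k)) ∧
      ∀ e : ι → ℤ, ∃ (s : ℕ → M) (m : Fin r → ℤ), Slw P φ X s ∧
        ∀ᶠ j in (φ : Filter ℕ), UU u e j = s j * monM (fun k => UU u (f k) j) m := by
  classical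
  obtain ⟨s1, s2, s3, -, -, -, s7, s8, -⟩ := hSLW M S P φ X hS hX
  obtain ⟨-, -, -, -, p5, -⟩ := hSPW M S P φ X hS hX
  have hne : ∀ᶠ j in (φ : Filter ℕ), ∀ i, u i j ≠ 0 := by
    rw [Filter.eventually_all]
    intro i
    exact (hu i).1.mono fun j hj => hj.1
  have hadd : ∀ e e' : ι → ℤ, Slw P φ X (UU u e) → Slw P φ X (UU u e') →
      Slw P φ X (UU u (e + e')) := by
    intro e e' h h'
    refine s7 _ _ ?_ (s2 _ _ h h').2
    filter_upwards [hne] with j hj
    exact (UU_add hj e e').symm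
  have hneg : ∀ e : ι → ℤ, Slw P φ X (UU u e) → Slw P φ X (UU u (-e)) := by
    intro e h
    have h1 : UU u (-e) = fun j => (UU u e j)⁻¹ := funext fun j => UU_neg j e
    rw [h1]
    exact s3 _ h
  have hzero : Slw P φ X (UU u (0 : ι → ℤ)) := by
    have h1 : UU u (0 : ι → ℤ) = fun _ => (1 : M) := funext fun j => UU_zero j
    rw [h1]
    exact s1 1
  let N : AddSubgroup (ι → ℤ) :=
    { carrier := {e | Slw P φ X (UU u e)}
      add_mem' := fun {a b} ha hb => hadd a b ha hb
      zero_mem' := hzero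
      neg_mem' := fun {a} ha => hneg a ha }
  let N' : Submodule ℤ (ι → ℤ) := AddSubgroup.toIntSubmodule N
  have hN'mem : ∀ e, e ∈ N' ↔ Slw P φ X (UU u e) := fun e => Iff.rfl
  have hsat : ∀ (k : ℤ) (e : ι → ℤ), k ≠ 0 → k • e ∈ N' → e ∈ N' := by
    intro k e hk he
    have key : ∀ n : ℕ, n ≠ 0 → ((n : ℤ) • e) ∈ N' → e ∈ N' := by
      intro n hn hne'
      rw [hN'mem] at hne' ⊢
      refine s8 _ n hn ?_
      have h1 : UU u ((n : ℤ) • e) = fun j => UU u e j ^ n := by
        funext j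
        rw [UU_smul, zpow_natCast]
      rwa [← h1]
    rcases Int.natAbs_eq k with h | h
    · rw [h] at he
      exact key _ (by omega) he
    · rw [h] at he
      have h2 : ((k.natAbs : ℤ) • e) ∈ N' := by
        have h3 := N'.neg_mem he
        rwa [neg_smul, neg_neg] at h3
      exact key _ (by omega) h2
  have : Module.IsTorsionFree ℤ ((ι → ℤ) ⧸ N') := by
    refine Module.IsTorsionFree.of_smul_eq_zero fun k x hx => ?_
    obtain ⟨e, rfl⟩ := N'.mkQ_surjective x
    by_cases hk : k = 0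
    · exact Or.inl hk
    · refine Or.inr ?_
      rw [← map_smul] at hx
      have h1 : k • e ∈ N' := (Submodule.Quotient.mk_eq_zero N').mp hx
      exact (Submodule.Quotient.mk_eq_zero N').mpr (hsat k e hk h1)
  have : Module.Free ℤ ((ι → ℤ) ⧸ N') := Module.free_of_finite_type_torsion_free'
  let b := Module.finBasis ℤ ((ι → ℤ) ⧸ N')
  choose f hf using fun k => N'.mkQ_surjective (b k)
  have hMU : ∀ e : ι → ℤ, MU P φ X (UU u e) := by
    intro e
    set q := Fintype.equivFin ι with hq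
    have h1 := p5 (Fintype.card ι) (fun k => u (q.symm k)) (fun k => e (q.symm k))
      (fun k => hu (q.symm k))
    have h2 : UU u e = fun j => monM (fun k => u (q.symm k) j) (fun k => e (q.symm k)) := by
      funext j
      unfold UU monM
      exact (Equiv.prod_comp q.symm fun i => u i j ^ e i).symm
    rw [h2]
    exact h1
  have hlin : ∀ (l : Fin (Module.finrank ℤ ((ι → ℤ) ⧸ N')) → ℤ),
      N'.mkQ (∑ k, l k • f k) = ∑ k, l k • b k := by
    intro l
    rw [map_sum]
    refine Finset.sum_congr rfl fun k _ => ?_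
    rw [map_smul, hf]
  refine ⟨Module.finrank ℤ ((ι → ℤ) ⧸ N'), f, fun k => hMU _, ?_, ?_⟩
  · intro l hl hslow
    apply hl
    have h1 : (∑ k, l k • f k) ∈ N' := by
      rw [hN'mem]
      refine s7 _ _ ?_ hslow
      filter_upwards [hne] with j hj
      exact (UU_sum hj f l).symm
    have h2 : ∑ k, l k • b k = 0 := by
      rw [← hlin l]
      exact (Submodule.Quotient.mk_eq_zero N').mpr h1
    have h3 := Fintype.linearIndependent_iff.mp b.linearIndependent l h2
    funext k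
    exact h3 k
  · intro e
    refine ⟨UU u (e - ∑ k, b.repr (N'.mkQ e) k • f k), fun k => b.repr (N'.mkQ e) k, ?_, ?_⟩
    · rw [← hN'mem, ← Submodule.Quotient.mk_eq_zero]
      show N'.mkQ _ = 0
      rw [map_sub, hlin, sub_eq_zero]
      exact (b.sum_repr _).symm
    · filter_upwards [hne] with j hj
      have h1 := UU_add hj (e - ∑ k, b.repr (N'.mkQ e) k • f k)
        (∑ k, b.repr (N'.mkQ e) k • f k)
      rw [sub_add_cancel, UU_sum hj] at h1
      exact h1

/-- (MONG) -/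
theorem MONG (hSLW : ST_SLW) (hSPW : ST_SPW) : ST_MONG := by
  intro M _ _ _ S P φ X ι _ u hS hX hu
  classical
  obtain ⟨-, -, p3, -⟩ := hSPW M S P φ X hS hX
  let U : ι × (M ≃ₐ[ℚ] M) → ℕ → M := fun q j => q.2 (u q.1 j)
  obtain ⟨r, f, h1, h2, h3⟩ := monw_all hSLW hSPW M S P φ X (ι × (M ≃ₐ[ℚ] M)) U hS hX
    (fun q => p3 (u q.1) q.2 (hu q.1))
  refine ⟨r, fun k => UU U (f k), h1, h2, ?_, ?_⟩
  · intro i τ
    obtain ⟨s, m, hs, hm⟩ := h3 (Pi.single (i, τ) 1)
    refine ⟨s, m, hs, ?_⟩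
    filter_upwards [hm] with j hj
    rw [UU_single] at hj
    exact hj
  · intro k τ
    obtain ⟨s, m, hs, hm⟩ := h3 (fun q => f k (q.1, τ⁻¹ * q.2))
    refine ⟨s, m, hs, ?_⟩
    filter_upwards [hm] with j hj
    rw [← hj]
    unfold UU
    rw [map_prod]
    refine Fintype.prod_equiv (Equiv.prodCongr (Equiv.refl ι) (Equiv.mulLeft τ)) _ _ fun q => ?_
    simp [U, AlgEquiv.mul_apply, map_zpow₀]

end Pool.Agent.Helper66.JN
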