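import Pool.Agent.Helper71.JN.SheetE
import Pool.Agent.Helper47.JN.RK

/-!
Project JN, row ZW, first part: the derivations `w_k ∂/∂w_k` on polynomials.
-/

set_option autoImplicit false

namespace Pool.Agent.Helper66.JN

open Pool.Agent.Helper71.JN MvPolynomial

section poly

variable {F : Type} [Field F] {r : ℕ}

/-- the derivation `w_k ∂/∂w_k` -/
noncomputable def eu (k : Fin r) (p : MvPolynomial (Fin r) F) : MvPolynomial (Fin r) F :=
  X k * pderiv k p

theorem eu_add (k : Fin r) (p q : MvPolynomial (Fin r) F) : eu k (p + q) = eu k p + eu k q := by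
  unfold eu
  rw [map_add, mul_add]

theorem eu_mul (k : Fin r) (p q : MvPolynomial (Fin r) F) :
    eu k (p * q) = eu k p * q + p * eu k q := by
  unfold eu
  rw [pderiv_mul]
  ring

theorem eu_C_mul (k : Fin r) (c : F) (p : MvPolynomial (Fin r) F) :
    eu k (C c * p) = C c * eu k p := by
  unfold eu
  rw [pderiv_C_mul]
  ring

theorem eu_monomial (k : Fin r) (m : Fin r →₀ ℕ) (c : F) :
    eu k (monomial m c) = monomial m ((m k : F) * c) := by
  unfold eu
  rw [pderiv_monomial, X, monomial_mul, one_mul]
  by_cases h : m k = 0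
  · rw [h]
    simp
  · have hs : Finsupp.single k 1 + (m - Finsupp.single k 1) = m := by
      ext j
      by_cases hj : j = k
      · subst hj
        simp
        omega
      · simp [Finsupp.single_apply, Ne.symm hj]
    rw [hs, mul_comm c]

theorem eu_coeff (k : Fin r) (p : MvPolynomial (Fin r) F) (m : Fin r →₀ ℕ) :
    (eu k p).coeff m = (m k : F) * p.coeff m := by
  classical
  induction p using MvPolynomial.induction_on' with
  | monomial n c =>
    rw [eu_monomial, coeff_monomial, coeff_monomial]
    by_cases h : n = m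
    · subst h
      simp
    · simp [h]
  | add p q hp hq => rw [eu_add, coeff_add, coeff_add, hp, hq, mul_add]

/-- polynomials with the same logarithmic derivatives are proportional -/
theorem eu_const [CharZero F] (f g : MvPolynomial (Fin r) F) (hg : g ≠ 0)
    (h : ∀ k, g * eu k f = f * eu k g) : ∃ c : F, f = C c * g := by
  classical
  let mo : MonomialOrder (Fin r) := MonomialOrder.lex
  have hle : ∀ (k : Fin r) (p : MvPolynomial (Fin r) F),
      mo.toSyn (mo.degree (eu k p)) ≤ mo.toSyn (mo.degree p) := by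
    intro k p
    rw [mo.degree_le_iff]
    intro c hc
    refine mo.le_degree ?_
    rw [mem_support_iff, eu_coeff] at hc
    rw [mem_support_iff]
    exact right_ne_zero_of_mul hc
  have key : ∀ f : MvPolynomial (Fin r) F, f ≠ 0 → (∀ k, g * eu k f = f * eu k g) →
      mo.degree f = mo.degree g := by
    intro f hf hfg
    ext k
    have h1 := congrArg (fun p => p.coeff (mo.degree g + mo.degree f)) (hfg k)
    beta_reduce at h1
    rw [mo.coeff_mul_of_add_of_degree_le le_rfl (hle k f), add_comm (mo.degree g) (mo.degree f),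
      mo.coeff_mul_of_add_of_degree_le le_rfl (hle k g), eu_coeff, eu_coeff] at h1
    have h2 : g.coeff (mo.degree g) ≠ 0 := mo.coeff_degree_ne_zero_iff.2 hg
    have h3 : f.coeff (mo.degree f) ≠ 0 := mo.coeff_degree_ne_zero_iff.2 hf
    have h4 : ((mo.degree f k : ℕ) : F) * (g.coeff (mo.degree g) * f.coeff (mo.degree f)) =
        ((mo.degree g k : ℕ) : F) * (g.coeff (mo.degree g) * f.coeff (mo.degree f)) := by
      linear_combination h1
    exact_mod_cast mul_right_cancel₀ (mul_ne_zero h2 h3) h4
  set c : F := f.coeff (mo.degree g) / g.coeff (mo.degree g) with hc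
  refine ⟨c, ?_⟩
  by_contra hne
  have h2 : g.coeff (mo.degree g) ≠ 0 := mo.coeff_degree_ne_zero_iff.2 hg
  have h3 : f + C (-c) * g ≠ 0 := by
    intro h0
    apply hne
    rw [C_neg] at h0
    linear_combination h0
  have h4 := key _ h3 fun k => by
    rw [eu_add, eu_C_mul]
    linear_combination h k
  have h5 : (f + C (-c) * g).coeff (mo.degree g) = 0 := by
    rw [coeff_add, coeff_C_mul, hc]
    field_simp
    ring
  rw [← h4] at h5
  exact mo.coeff_degree_ne_zero_iff.2 h3 h5

end poly

section size

variable {F Ω : Type} [Field F] [Field Ω] [Algebra F Ω] {I : Type} [Fintype I] {r : ℕ}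

/-- the monomials of a polynomial are not larger than the polynomial -/
theorem nu_mon_le (D : SSF F Ω I r) (i : I) (p : MvPolynomial (Fin r) F) (n : Fin r →₀ ℕ)
    (hn : n ∈ p.support) : D.nu i (mon D.w (Pool.Agent.Helper47.JN.nz n)) ≤ D.nu i (D.ev p) := by
  classical
  set g : (Fin r → ℤ) → (Fin r →₀ ℕ) := fun m =>
    Finsupp.equivFunOnFinite.symm fun k => (m k).toNat with hg
  have hgn : ∀ n : Fin r →₀ ℕ, g (Pool.Agent.Helper47.JN.nz n) = n := by
    intro n
    ext k
    simp [hg, Pool.Agent.Helper47.JN.nz]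
  have h1 := D.lau i (p.support.image Pool.Agent.Helper47.JN.nz) (fun m => p.coeff (g m))
    (Pool.Agent.Helper47.JN.nz n) (Finset.mem_image.2 ⟨n, hn, rfl⟩) (by
      simp only [hgn]
      exact mem_support_iff.1 hn)
  rw [Finset.sum_image fun a _ b _ h => Pool.Agent.Helper47.JN.nz_inj h] at h1
  simp only [hgn] at h1
  rwa [← Pool.Agent.Helper47.JN.ev_sum] at h1

/-- the derivations do not increase the size -/
theorem nu_eu (D : SSF F Ω I r) (i : I) (k : Fin r) (p : MvPolynomial (Fin r) F) :
    D.nu i (D.ev (eu k p)) ≤ D.nu i (D.ev p) := by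
  rw [Pool.Agent.Helper47.JN.ev_sum D (eu k p)]
  refine Pool.Agent.Helper47.JN.nu_sum_le D i _ ((D.nu i).nonneg _) _ _ fun n hn => ?_
  have h1 : (eu k p).coeff n ≠ 0 := mem_support_iff.1 hn
  rw [Pool.Agent.Helper47.JN.nu_term D i _ h1]
  refine nu_mon_le D i p n ?_
  rw [eu_coeff] at h1
  exact mem_support_iff.2 (right_ne_zero_of_mul h1)

end size

end Pool.Agent.Helper66.JN
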