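import Pool.Agent.Helper66.JN.ZWa
import Pool.Agent.Helper66.JN.N2B

/-!
Project JN, row ZW: points of `Y ^ 2 = X ^ 3 + d` over `K`.
-/

set_option autoImplicit false

namespace Pool.Agent.Helper66.JN

open Pool.Agent.Helper71.JN MvPolynomial

/-- a point of `Y ^ 2 = X ^ 3 + d` over the field of fractions of a UFD in lowest terms -/
theorem red {P : Type} [CommRing P] [IsDomain P] [UniqueFactorizationMonoid P] (a b c e d : P)
    (hc : c ≠ 0) (h1 : IsRelPrime a c) (h2 : IsRelPrime b e)
    (h : b ^ 2 * c ^ 3 = e ^ 2 * (a ^ 3 + d * c ^ 3)) :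
    ∃ A B C : P, C ≠ 0 ∧ IsRelPrime C B ∧ B ^ 2 = A ^ 3 + d * C ^ 6 ∧ a * C ^ 2 = A * c ∧
      b * C ^ 3 = B * e := by
  have k1 : e ^ 2 ∣ c ^ 3 := by
    refine IsRelPrime.dvd_of_dvd_mul_left (y := b ^ 2) ?_ ⟨_, h⟩
    exact (IsRelPrime.pow h2).symm
  have k2 : c ^ 3 ∣ e ^ 2 := by
    refine IsRelPrime.dvd_of_dvd_mul_right (z := a ^ 3 + d * c ^ 3) ?_ ⟨b ^ 2, ?_⟩
    · exact (IsRelPrime.add_mul_right_left (IsRelPrime.pow h1) d).symm
    · rw [← h, mul_comm]
  have k3 : c ^ 2 ∣ e ^ 2 := (pow_dvd_pow c (by norm_num)).trans k2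
  obtain ⟨C, hC⟩ := (IsIntegrallyClosed.pow_dvd_pow_iff (by norm_num)).1 k3
  have hc2 : c ^ 2 ≠ 0 := pow_ne_zero 2 hc
  have k4 : c ∣ C ^ 2 := by
    rw [hC, mul_pow, pow_succ c 2] at k2
    exact (mul_dvd_mul_iff_left hc2).1 k2
  have k5 : C ^ 2 ∣ c := by
    rw [hC, mul_pow, pow_succ c 2] at k1
    exact (mul_dvd_mul_iff_left hc2).1 k1
  obtain ⟨u, hu⟩ := associated_of_dvd_dvd k5 k4
  have hC0 : C ≠ 0 := by
    rintro rfl
    apply hc
    rw [← hu]
    ring
  have huu : ((u⁻¹ : Pˣ) : P) * (u : P) = 1 := Units.inv_mul u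
  obtain ⟨s, hs⟩ : ∃ s : P, s = ((u⁻¹ : Pˣ) : P) := ⟨_, rfl⟩
  obtain ⟨t, ht⟩ : ∃ t : P, t = (u : P) := ⟨_, rfl⟩
  rw [← hs, ← ht] at huu
  rw [← ht] at hu
  refine ⟨a * s, b * s, C, hC0, ?_, ?_, ?_, ?_⟩
  · have g1 : IsRelPrime C b := by
      have g2 : C ∣ e := ⟨c, by rw [hC]; ring⟩
      exact (h2.of_dvd_right g2).symm
    refine g1.of_dvd_right ⟨t, ?_⟩
    linear_combination (-b) * huu
  · have g1 : t ^ 2 * C ^ 6 ≠ 0 := by
      refine mul_ne_zero (pow_ne_zero 2 ?_) (pow_ne_zero 6 hC0)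
      rw [ht]
      exact u.ne_zero
    have g2 : b ^ 2 * t = a ^ 3 + d * (t ^ 3 * C ^ 6) := by
      apply mul_left_cancel₀ g1
      rw [hC, ← hu] at h
      linear_combination h
    have g3 : s ^ 3 * (b ^ 2 * t) = (s * t) * (b * s) ^ 2 := by ring
    have g4 : s ^ 3 * (a ^ 3 + d * (t ^ 3 * C ^ 6)) = (a * s) ^ 3 + (s * t) ^ 3 * (d * C ^ 6) := by
      ring
    have g5 := congrArg (fun z => s ^ 3 * z) g2
    beta_reduce at g5
    rw [g3, g4, huu] at g5
    linear_combination g5
  · rw [← hu]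
    linear_combination (-(a * C ^ 2)) * huu
  · rw [hC, ← hu]
    linear_combination (-(b * C ^ 3)) * huu

/-- (ZW) -/
theorem ZW : ST_ZW := by
  intro F Ω _ _ _ _ I _ r D J α X Y d hJ hα hXK hYK hdR hd0 hYX hsJ hsn
  classical
  have hF : CharZero F := by
    refine ⟨fun a b hab => ?_⟩
    have h1 := congrArg (algebraMap F Ω) hab
    simpa using h1
  have hult : ∀ (i : I) (g h : Ω), D.nu i (g + h) ≤ max (D.nu i g) (D.nu i h) :=
    fun i g h => D.ult i g h
  -- clearing the denominator of `d`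
  obtain ⟨m, pd, hpd⟩ := Pool.Agent.Helper47.JN.R_form D d hdR
  obtain ⟨n, hn⟩ : ∃ n : Fin r → ℤ, n = fun k => |m k| := ⟨_, rfl⟩
  obtain ⟨M, hM⟩ : ∃ M : Ω, M = mon D.w n := ⟨_, rfl⟩
  have hM0 : M ≠ 0 := by
    rw [hM]
    exact Pool.Agent.Helper47.JN.mon_ne D.w0 n
  have hMR : M ∈ D.R := by
    rw [hM]
    exact Pool.Agent.Helper47.JN.mon_mem D n
  have hMK : M ∈ D.K := Pool.Agent.Helper47.JN.R_le_K D M hMR
  obtain ⟨q, hq⟩ := Pool.Agent.Helper47.JN.exists_nat D (n + n + n + n + n + n + m) (by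
    intro k
    simp only [Pi.zero_apply, Pi.add_apply, hn]
    have h1 := neg_abs_le (m k)
    have h2 := abs_nonneg (m k)
    linarith)
  obtain ⟨dd, hdd⟩ : ∃ dd : MvPolynomial (Fin r) F, D.ev dd = M ^ 6 * d := by
    refine ⟨q * pd, ?_⟩
    rw [map_mul, ← hq, hpd]
    simp only [Pool.Agent.Helper47.JN.mon_add D.w0, ← hM]
    ring
  -- reduced fractions
  have hfrac : ∀ z ∈ D.K, ∃ a c : MvPolynomial (Fin r) F, c ≠ 0 ∧ IsRelPrime a c ∧
      z * D.ev c = D.ev a := by
    intro z hz
    obtain ⟨p1, q1, hq1, h1⟩ := Pool.Agent.Helper47.JN.K_form D z hz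
    obtain ⟨a, c, g, hrel, ha, hc⟩ :=
      UniqueFactorizationMonoid.exists_reduced_factors' p1 q1 hq1
    have hc0 : c ≠ 0 := by
      rintro rfl
      apply hq1
      rw [← hc, mul_zero]
    have hg0 : g ≠ 0 := by
      rintro rfl
      apply hq1
      rw [← hc, zero_mul]
    refine ⟨a, c, hc0, hrel, ?_⟩
    have e1 := Pool.Agent.Helper47.JN.ev_ne D c hc0
    have e2 := Pool.Agent.Helper47.JN.ev_ne D g hg0
    rw [h1, ← ha, ← hc, map_mul, map_mul]
    field_simp
  obtain ⟨a, c, hc0, hac, hXa⟩ := hfrac (M ^ 2 * X) (D.K.mul_mem (pow_mem hMK 2) hXK)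
  obtain ⟨b, e, he0, hbe, hYb⟩ := hfrac (M ^ 3 * Y) (D.K.mul_mem (pow_mem hMK 3) hYK)
  have heq : b ^ 2 * c ^ 3 = e ^ 2 * (a ^ 3 + dd * c ^ 3) := by
    apply Pool.Agent.Helper47.JN.ev_inj D
    simp only [map_mul, map_pow, map_add, ← hXa, ← hYb, hdd]
    linear_combination (M ^ 6 * D.ev e ^ 2 * D.ev c ^ 3) * hYX
  obtain ⟨A, B, C', hC0, hCB, hABC, haA, hbB⟩ := red a b c e dd hc0 hac hbe heq
  have eC0 := Pool.Agent.Helper47.JN.ev_ne D C' hC0
  have ec0 := Pool.Agent.Helper47.JN.ev_ne D c hc0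
  have ee0 := Pool.Agent.Helper47.JN.ev_ne D e he0
  have hevA : D.ev A = M ^ 2 * X * D.ev C' ^ 2 := by
    have h1 := congrArg D.ev haA
    rw [map_mul, map_mul, map_pow, ← hXa] at h1
    apply mul_right_cancel₀ ec0
    rw [← h1]
    ring
  have hevB : D.ev B = M ^ 3 * Y * D.ev C' ^ 3 := by
    have h1 := congrArg D.ev hbB
    rw [map_mul, map_mul, map_pow, ← hYb] at h1
    apply mul_right_cancel₀ ee0
    rw [← h1]
    ring
  obtain ⟨j, hj⟩ := hJ
  have hX0 : X ≠ 0 := by
    rintro rfl
    have h1 := (hsJ j hj).1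
    rw [map_zero] at h1
    exact (Real.exp_pos 2).ne h1
  have hY0 : Y ≠ 0 := by
    rintro rfl
    have h1 := (hsJ j hj).2.1
    rw [map_zero] at h1
    exact (Real.exp_pos 3).ne h1
  have hA0 : A ≠ 0 := by
    rintro rfl
    rw [map_zero] at hevA
    exact mul_ne_zero (mul_ne_zero (pow_ne_zero 2 hM0) hX0) (pow_ne_zero 2 eC0) hevA.symm
  -- the quantity `Z`
  have hW : ∀ k : Fin r, 2 * A * eu k B = 3 * B * eu k A := by
    intro k
    have hABC' : B * B = A * A * A + dd * (C' * C' * C' * C' * C' * C') := by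
      linear_combination hABC
    have h1 := congrArg (eu k) hABC'
    simp only [eu_mul, eu_add] at h1
    have h2 : B * (2 * A * eu k B - 3 * B * eu k A) =
        C' ^ 5 * (A * C' * eu k dd - 3 * dd * (C' * eu k A - 2 * A * eu k C')) := by
      linear_combination A * h1 - 3 * eu k A * hABC
    have h3 : C' ^ 5 ∣ 2 * A * eu k B - 3 * B * eu k A := by
      refine IsRelPrime.dvd_of_dvd_mul_left (y := B) ?_ ⟨_, h2⟩
      exact IsRelPrime.pow_left hCB
    obtain ⟨Z, hZ⟩ := h3
    have h4 : B * Z = A * C' * eu k dd - 3 * dd * (C' * eu k A - 2 * A * eu k C') := by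
      apply mul_left_cancel₀ (pow_ne_zero 5 hC0)
      rw [← h2, hZ]
      ring
    have hZt : D.ev Z * (mon D.w (-n)) ^ 5 = 0 := by
      refine prod_zero D J ⟨j, hj⟩ (Pool.Agent.Helper47.JN.prod_ge D) _
        (Pool.Agent.Helper47.JN.R_le_O D _ (D.R.mul_mem (Pool.Agent.Helper47.JN.ev_mem D Z)
          (D.R.pow_mem (Pool.Agent.Helper47.JN.mon_mem D (-n)) 5))) ?_ ?_
      all_goals
        intro i hi
        have nM := (D.nu i).pos hM0
        have nC := (D.nu i).pos eC0
        have n2 : D.nu i (2 : Ω) = 1 := by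
          have := D.F1 i 2 (by norm_num)
          rwa [map_ofNat] at this
        have n3 : D.nu i (3 : Ω) = 1 := by
          have := D.F1 i 3 (by norm_num)
          rwa [map_ofNat] at this
        have nA : D.nu i (D.ev A) = D.nu i M ^ 2 * D.nu i X * D.nu i (D.ev C') ^ 2 := by
          rw [hevA]
          simp only [map_mul, map_pow]
        have nB : D.nu i (D.ev B) = D.nu i M ^ 3 * D.nu i Y * D.nu i (D.ev C') ^ 3 := by
          rw [hevB]
          simp only [map_mul, map_pow]
        have nd : D.nu i (D.ev dd) = D.nu i M ^ 6 * D.nu i d := by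
          rw [hdd]
          simp only [map_mul, map_pow]
        have nZ : D.nu i (D.ev Z * (mon D.w (-n)) ^ 5) = D.nu i (D.ev Z) / D.nu i M ^ 5 := by
          rw [Pool.Agent.Helper47.JN.mon_neg, ← hM, map_mul, map_pow, map_inv₀]
          field_simp
        -- first bound
        have F1 : D.nu i (D.ev Z) / D.nu i M ^ 5 ≤ D.nu i X * D.nu i Y := by
          have g1 : D.nu i (D.ev (2 * A * eu k B - 3 * B * eu k A)) ≤
              D.nu i (D.ev A) * D.nu i (D.ev B) := by
            rw [map_sub]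
            refine u_sub (D.nu i) (hult i) ?_ ?_
            · simp only [map_mul, map_ofNat, n2, one_mul]
              exact mul_le_mul_of_nonneg_left (nu_eu D i k B) ((D.nu i).nonneg _)
            · simp only [map_mul, map_ofNat, n3, one_mul]
              rw [mul_comm (D.nu i (D.ev A))]
              exact mul_le_mul_of_nonneg_left (nu_eu D i k A) ((D.nu i).nonneg _)
          rw [hZ] at g1
          simp only [map_mul, map_pow] at g1
          rw [nA, nB] at g1
          rw [div_le_iff₀ (by positivity)]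
          have g2 : D.nu i (D.ev C') ^ 5 * D.nu i (D.ev Z) ≤
              D.nu i (D.ev C') ^ 5 * (D.nu i X * D.nu i Y * D.nu i M ^ 5) := by
            refine g1.trans (le_of_eq ?_)
            ring
          exact le_of_mul_le_mul_left g2 (by positivity)
        have F2 : D.nu i Y * (D.nu i (D.ev Z) / D.nu i M ^ 5) ≤ D.nu i X * D.nu i d := by
          have g1 : D.nu i (D.ev (A * C' * eu k dd - 3 * dd * (C' * eu k A - 2 * A * eu k C'))) ≤
              D.nu i (D.ev A) * D.nu i (D.ev C') * D.nu i (D.ev dd) := by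
            have s1 := nu_eu D i k dd
            have s2 := nu_eu D i k A
            have s3 := nu_eu D i k C'
            have p1 := (D.nu i).nonneg (D.ev A)
            have p2 := (D.nu i).nonneg (D.ev C')
            have p3 := (D.nu i).nonneg (D.ev dd)
            rw [map_sub]
            refine u_sub (D.nu i) (hult i) ?_ ?_
            · simp only [map_mul]
              exact mul_le_mul_of_nonneg_left s1 (by positivity)
            · have g0 : D.nu i (D.ev (3 * dd)) = D.nu i (D.ev dd) := by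
                simp only [map_mul, map_ofNat, n3, one_mul]
              rw [map_mul, map_mul, g0, map_sub]
              have g2 : D.nu i (D.ev (C' * eu k A) - D.ev (2 * A * eu k C')) ≤
                  D.nu i (D.ev A) * D.nu i (D.ev C') := by
                refine u_sub (D.nu i) (hult i) ?_ ?_
                · simp only [map_mul]
                  rw [mul_comm (D.nu i (D.ev A))]
                  exact mul_le_mul_of_nonneg_left s2 p2
                · simp only [map_mul, map_ofNat, n2, one_mul]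
                  exact mul_le_mul_of_nonneg_left s3 p1
              rw [mul_comm (D.nu i (D.ev A) * D.nu i (D.ev C'))]
              exact mul_le_mul_of_nonneg_left g2 p3
          rw [← h4] at g1
          simp only [map_mul] at g1
          rw [nA, nB, nd] at g1
          have g3 : (D.nu i M ^ 8 * D.nu i (D.ev C') ^ 3) *
              (D.nu i Y * (D.nu i (D.ev Z) / D.nu i M ^ 5)) ≤
              (D.nu i M ^ 8 * D.nu i (D.ev C') ^ 3) * (D.nu i X * D.nu i d) := by
            refine le_trans (le_of_eq ?_) (g1.trans (le_of_eq ?_))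
            · field_simp
            · ring
          exact le_of_mul_le_mul_left g3 (by positivity)
        rw [nZ]
      · obtain ⟨s1, s2, s3⟩ := hsJ i hi
        rw [s1, s2] at F2
        have g1 : Real.exp 3 * (D.nu i (D.ev Z) / D.nu i M ^ 5) ≤ Real.exp 2 * Real.exp α :=
          F2.trans (mul_le_mul_of_nonneg_left s3 (Real.exp_pos _).le)
        rw [← Real.exp_add] at g1
        have g2 : Real.exp (2 + α) < Real.exp 3 * 1 := by
          rw [mul_one]
          exact Real.exp_lt_exp.2 (by linarith)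
        exact lt_of_mul_lt_mul_left (g1.trans_lt g2) (Real.exp_pos _).le
      · have s1 := hsn i hi
        have hYX' : D.nu i Y ^ 2 = D.nu i (X ^ 3 + d) := by
          rw [← hYX, map_pow]
        have pX := (D.nu i).pos hX0
        have pY := (D.nu i).pos hY0
        rcases le_or_gt (D.nu i X) 1 with hX1 | hX1
        · have g1 : D.nu i Y ^ 2 ≤ 1 := by
            rw [hYX']
            refine u_add (D.nu i) (hult i) ?_ s1
            rw [map_pow]
            exact pow_le_one₀ pX.le hX1
          have g2 : D.nu i Y ≤ 1 := by nlinarith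
          refine F1.trans ?_
          nlinarith
        · have g1 : D.nu i (X ^ 3 + d) = D.nu i (X ^ 3) := by
            refine u_iso (D.nu i) (hult i) (s1.trans_lt ?_)
            rw [map_pow]
            exact one_lt_pow₀ hX1 (by norm_num)
          rw [g1, map_pow] at hYX'
          have g2 : D.nu i X ≤ D.nu i Y := by
            have g3 : D.nu i X ^ 2 ≤ D.nu i Y ^ 2 := by
              rw [hYX']
              exact pow_le_pow_right₀ hX1.le (by norm_num)
            exact (pow_le_pow_iff_left₀ pX.le pY.le (by norm_num)).1 g3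
          have g4 : D.nu i Y * (D.nu i (D.ev Z) / D.nu i M ^ 5) ≤ D.nu i Y * 1 := by
            refine F2.trans ?_
            rw [mul_one]
            exact (mul_le_of_le_one_right pX.le s1).trans g2
          exact le_of_mul_le_mul_left g4 pY
    have hZ0 : Z = 0 := by
      by_contra hne
      exact mul_ne_zero (Pool.Agent.Helper47.JN.ev_ne D Z hne)
        (pow_ne_zero 5 (Pool.Agent.Helper47.JN.mon_ne D.w0 (-n))) hZt
    rw [hZ0, mul_zero] at hZ
    exact sub_eq_zero.1 hZ
  -- conclusion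
  obtain ⟨cc, hcc⟩ := eu_const (B * B) (A * A * A) (mul_ne_zero (mul_ne_zero hA0 hA0) hA0)
    (fun k => by
      simp only [eu_mul]
      linear_combination (A ^ 2 * B) * hW k)
  have h1 := congrArg D.ev hcc
  simp only [map_mul, hevA, hevB] at h1
  have hcev : D.ev (C cc) = algebraMap F Ω cc := by
    unfold SSF.ev
    rw [aeval_C]
  rw [hcev] at h1
  have h2 : Y ^ 2 = algebraMap F Ω cc * X ^ 3 := by
    have h3 : M ^ 6 * D.ev C' ^ 6 ≠ 0 := mul_ne_zero (pow_ne_zero 6 hM0) (pow_ne_zero 6 eC0)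
    apply mul_left_cancel₀ h3
    linear_combination h1
  have h3 : d = algebraMap F Ω (cc - 1) * X ^ 3 := by
    rw [map_sub, map_one]
    linear_combination h2 - hYX
  by_cases h4 : cc - 1 = 0
  · rw [h4, map_zero, zero_mul] at h3
    exact hd0 h3
  · obtain ⟨s1, -, s3⟩ := hsJ j hj
    rw [h3, Pool.Agent.Helper47.JN.nu_term D j _ h4, map_pow, s1, ← Real.exp_nat_mul] at s3
    have h5 := Real.exp_le_exp.1 s3
    push_cast at h5
    linarith

end Pool.Agent.Helper66.JN
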